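import Pool.Agent.helper51.VF.SpecC
import Pool.Agent.helper8.QS.RON

/-!
# Row vf:RNF (MP_74cfa5_ag): the prime of a singular point of codimension two
-/

set_option autoImplicit false

namespace Pool.Agent.VF

open Pool.Agent.PC Pool.Agent.QS MvPolynomial

universe u

theorem RNF (hPLV : PLV_stmt.{u}) (hWVL : QS.WVL_stmt.{u}) (hYWV : QS.YWV_stmt.{u}) : RNF_stmt.{u} := by
  intro k R A F K _ _ _ _ _ _ _ _ _ _ _ _ _ _ _ _ _ _ _ _ _ _ _ _ _ _ _ _ n p _ _ hFol x hx hfin hfinF hdim h2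
    ω μ g hω hg hμ m _ hDiscr t ht0 δ hδ0 hδL hDisc Q y φ hQ hQm htQ hy hT hy0Q hy1Q hsp hFix
  haveI : Algebra.FinitePresentation k A := Algebra.Smooth.finitePresentation
  haveI : Algebra.FiniteType k A := inferInstance
  haveI : IsNoetherianRing A := Algebra.FiniteType.isNoetherianRing k A
  set w : Fin n → ℕ := fun i => if (i : ℕ) < 2 then 1 else 0 with hw
  have hw0 : w ⟨0, by omega⟩ = 1 := by simp [hw]
  have hw1 : w ⟨1, by omega⟩ = 1 := by simp [hw]
  have hwle : ∀ i, w i ≤ 1 := by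
    intro i
    rw [hw]
    dsimp only
    split_ifs <;> omega
  obtain ⟨v, hW⟩ := hWVL k A K n m y φ hT w (Or.inl ⟨⟨0, by omega⟩, hw0⟩)
  obtain ⟨hv1, hv2, hv3, hv4, -⟩ := hYWV k A K n m y φ hT w v hW
  have hv : DVal v := hW.1
  have hgy0 : Ge v 1 (algebraMap A K (y ⟨0, by omega⟩)) := by
    right
    rw [(hv1 ⟨0, by omega⟩).2, hw0]
    simp
  have hgy1 : Ge v 1 (algebraMap A K (y ⟨1, by omega⟩)) := by
    right
    rw [(hv1 ⟨1, by omega⟩).2, hw1]
    simp
  -- the elements of `Q` have positive value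
  rw [RON_set h2] at hsp
  have hQv : ∀ b ∈ Q, Ge v 1 (algebraMap A K b) := by
    intro b hb
    obtain ⟨s', hs', h3⟩ := hsp b hb
    rw [Ideal.mem_span_pair] at h3
    obtain ⟨γ, ε, h3⟩ := h3
    refine RON_val m hv hv4 s' b hs' 1 ?_
    rw [← h3, map_add, map_mul, map_mul]
    have h4 := CON_ge_mul hv (hv3 γ) hgy0
    have h5 := CON_ge_mul hv (hv3 ε) hgy1
    rw [zero_add] at h4 h5
    exact CON_ge_add hv h4 h5
  have hinj := IsFractionRing.injective A K
  have hne : ∀ (J : Ideal A) (s : A), s ∉ J → algebraMap A K s ≠ 0 := fun J s hs h0 =>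
    hs ((map_eq_zero_iff _ hinj).1 h0 ▸ J.zero_mem)
  have hδv : ∀ i, Ge v ((w i : ℤ) + 0) (δ (algebraMap A K (y i))) := by
    intro i
    obtain ⟨a, s, hs, h3⟩ := hδL (y i)
    obtain ⟨a', s', hs', ha', h4⟩ := hFix (y i)
    have hs0 := hne m s hs
    have hs0' := hne Q s' hs'
    have h5 : a * s' = a' * s := by
      apply hinj
      rw [map_mul, map_mul]
      rw [h3, div_eq_div_iff hs0 hs0'] at h4
      exact h4
    have haQ : a ∈ Q := (hQ.mem_or_mem (h5 ▸ Ideal.mul_mem_right s Q ha' : a * s' ∈ Q)).resolve_right hs'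
    have h6 := hQv a haQ
    rw [h3]
    rcases h6 with h6 | h6
    · left
      rw [h6, zero_div]
    · by_cases ha0 : algebraMap A K a = 0
      · left
        rw [ha0, zero_div]
      · right
        have h7 : v (algebraMap A K a / algebraMap A K s) = v (algebraMap A K a) := by
          have h8 := hv.mul (algebraMap A K a / algebraMap A K s) (algebraMap A K s) (div_ne_zero ha0 hs0) hs0
          rw [div_mul_cancel₀ _ hs0, hv4 s hs, add_zero] at h8
          exact h8.symm
        rw [h7]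
        have h9 := hwle i
        have h10 : (w i : ℤ) ≤ 1 := by exact_mod_cast h9
        linarith
  have hlt := (hPLV k R A F K n p hFol x hx hfin hfinF h2 ω μ g hω hg hμ m hDiscr t ht0 δ hδ0 hδL hDisc y φ hy hT w v
    (by rw [hw0]) (by rw [hw1]) hW 0 hδv).1
  rw [show ∑ i, (w i : ℤ) = 2 from RON_sum n h2, mul_zero, sub_zero] at hlt
  obtain ⟨s', hs', h3⟩ := hsp t htQ
  rw [Ideal.mem_span_pair] at h3
  obtain ⟨α, β, h3⟩ := h3
  refine RON_fin m Q hQ hQm _ _ t hy0Q hy1Q hsp s' α β h3.symm ?_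
  by_contra hcon
  rw [not_or, not_not, not_not] at hcon
  have h4 : Ge v 2 (algebraMap A K t) := by
    refine RON_val m hv hv4 s' t hs' 2 ?_
    rw [← h3, map_add, map_mul, map_mul]
    have h5 := CON_ge_mul hv (hQv α hcon.1) hgy0
    have h6 := CON_ge_mul hv (hQv β hcon.2) hgy1
    exact CON_ge_add hv h5 h6
  have h5 := h4.resolve_left (fun h0 => ht0 ((map_eq_zero_iff _ hinj).1 h0))
  omega

end Pool.Agent.VF
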