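import Pool.Agent.helper51.VF.SpecA
import Pool.Agent.helper51.VF.Lib
import Pool.Agent.helper51.QS.Lib

/-!
# Row vf:TVB (MP_74cfa5_ag): values of `τ`
-/

set_option autoImplicit false

namespace Pool.Agent.VF

open Pool.Agent.PC Pool.Agent.QS MvPolynomial

universe u

section tvb

variable {k A F K : Type u} [Field k] [CommRing A] [IsDomain A] [Algebra k A] [Field F] [Field K] [Algebra k F]
  [Algebra k K] [Algebra F K] [IsScalarTower k F K] [Algebra A K] [IsScalarTower k A K] {v : K → ℤ}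

theorem TVB_iter (δ : Derivation F K K) (j : ℤ) (h : ∀ (r : ℤ) (b : K), Ge v r b → Ge v (r + j) (δ b))
    (i : ℕ) (r : ℤ) (b : K) (hb : Ge v r b) : Ge v (r + i * j) ((⇑δ)^[i] b) := by
  induction i with
  | zero => simpa using hb
  | succ i ih =>
    rw [Function.iterate_succ_apply']
    have h1 := h _ _ ih
    have h2 : r + ((i + 1 : ℕ) : ℤ) * j = r + i * j + j := by push_cast; ring
    rw [h2]
    exact h1

theorem TVB_const (hc : ∀ c : k, c ≠ 0 → v (algebraMap k K c) = 0) (c : k) : Ge v 0 (algebraMap k K c) := by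
  by_cases h : c = 0
  · left
    rw [h, map_zero]
  · right
    rw [hc c h]

theorem TVB_sum {ι : Type} (hv : DVal v) (r : ℤ) (s : Finset ι) (f : ι → K) (h : ∀ i ∈ s, Ge v r (f i)) :
    Ge v r (∑ i ∈ s, f i) := by
  classical
  induction s using Finset.induction_on with
  | empty => exact Or.inl Finset.sum_empty
  | insert i s his ih =>
    rw [Finset.sum_insert his]
    exact CON_ge_add hv (h i (by simp)) (ih fun j hj => h j (by simp [hj]))

/-- the predicate which is closed under products -/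
def TVB_P (v : K → ℤ) (p : ℕ) (τ : A → K) (j : ℤ) (a : A) (r : ℤ) : Prop :=
  Ge v r (algebraMap A K a) ∧ Ge v (r + p * j) (τ a)

variable {p : ℕ} {τ : A → K} {j : ℤ}

theorem TVB_mono {a : A} {r r' : ℤ} (h : r' ≤ r) (ha : TVB_P v p τ j a r) : TVB_P v p τ j a r' :=
  ⟨CON_ge_mono h ha.1, CON_ge_mono (by linarith) ha.2⟩

theorem TVB_mul (hv : DVal v) (hc : ∀ c : k, c ≠ 0 → v (algebraMap k K c) = 0) (δ : Derivation F K K)
    (h : ∀ (r : ℤ) (b : K), Ge v r b → Ge v (r + j) (δ b))
    (hτ : ∀ a b, τ (a * b) = algebraMap A K a * τ b + algebraMap A K b * τ a +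
    ∑ i ∈ Finset.Ico 1 p, ((i.factorial * (p - i).factorial : ℕ) : K)⁻¹ *
      ((⇑δ)^[i] (algebraMap A K a) * (⇑δ)^[p - i] (algebraMap A K b))) {a b : A} {r s : ℤ}
    (ha : TVB_P v p τ j a r) (hb : TVB_P v p τ j b s) : TVB_P v p τ j (a * b) (r + s) := by
  refine ⟨?_, ?_⟩
  · rw [map_mul]
    exact CON_ge_mul hv ha.1 hb.1
  · rw [hτ]
    refine CON_ge_add hv (CON_ge_add hv ?_ ?_) (TVB_sum hv _ _ _ fun i hi => ?_)
    · have h1 := CON_ge_mul hv ha.1 hb.2
      have h2 : r + s + p * j = r + (s + p * j) := by ring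
      rw [h2]
      exact h1
    · have h1 := CON_ge_mul hv hb.1 ha.2
      have h2 : r + s + p * j = s + (r + p * j) := by ring
      rw [h2]
      exact h1
    · rw [Finset.mem_Ico] at hi
      have h1 : Ge v 0 (((i.factorial * (p - i).factorial : ℕ) : K)⁻¹) := by
        have h2 := TVB_const hc (((i.factorial * (p - i).factorial : ℕ) : k)⁻¹)
        rwa [map_inv₀, map_natCast] at h2
      have h3 := CON_ge_mul hv (TVB_iter δ j h i r _ ha.1) (TVB_iter δ j h (p - i) s _ hb.1)
      have h4 := CON_ge_mul hv h1 h3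
      have h5 : r + s + p * j = 0 + (r + i * j + (s + ((p - i : ℕ) : ℤ) * j)) := by
        rw [Nat.cast_sub hi.2.le]
        ring
      rw [h5]
      exact h4

theorem TVB_add (hv : DVal v) (hτ : ∀ a b, τ (a + b) = τ a + τ b) {a b : A} {r : ℤ}
    (ha : TVB_P v p τ j a r) (hb : TVB_P v p τ j b r) : TVB_P v p τ j (a + b) r := by
  refine ⟨?_, ?_⟩
  · rw [map_add]
    exact CON_ge_add hv ha.1 hb.1
  · rw [hτ]
    exact CON_ge_add hv ha.2 hb.2

end tvb

theorem TVB (hYWV : QS.YWV_stmt.{u}) (hMNT : MNT_stmt.{u}) (hVCL : VCL_stmt.{u}) : TVB_stmt.{u} := by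
  intro k A F K _ _ _ _ _ _ _ _ _ _ _ _ _ p _ _ n m _ y φ hT w v hW δ τ hδL hτ j hj
  obtain ⟨hv1, hv2, hv3, hv4, -⟩ := hYWV k A K n m y φ hT w v hW
  have hv : DVal v := hW.1
  have hτ0 := hτ
  obtain ⟨hτa, hτm, hτc, hτL, hτy, -⟩ := hτ
  have hmul : ∀ {a b : A} {r s : ℤ}, TVB_P v p τ j a r → TVB_P v p τ j b s → TVB_P v p τ j (a * b) (r + s) :=
    fun ha hb => TVB_mul (k := k) hv hv2 δ hj hτm ha hb
  have hconst : ∀ c : k, TVB_P v p τ j (algebraMap k A c) 0 := fun c =>
    ⟨hv3 _, by rw [hτc]; exact Or.inl rfl⟩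
  have hone : TVB_P v p τ j 1 0 := by
    have h1 := hconst 1
    rwa [map_one] at h1
  have hzero : ∀ r : ℤ, TVB_P v p τ j 0 r := by
    intro r
    refine ⟨Or.inl (map_zero _), ?_⟩
    have h1 := hτc 0
    rw [map_zero] at h1
    rw [h1]
    exact Or.inl rfl
  have hY : ∀ l, TVB_P v p τ j (y l) (w l) := by
    intro l
    refine ⟨Or.inr (hv1 l).2.ge, ?_⟩
    rw [hτy]
    exact Or.inl rfl
  have hpow : ∀ (l : Fin n) (e : ℕ), TVB_P v p τ j (y l ^ e) ((e * w l : ℕ) : ℤ) := by
    intro l e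
    induction e with
    | zero =>
      rw [pow_zero, zero_mul]
      exact hone
    | succ e ih =>
      rw [pow_succ]
      have h1 := hmul ih (hY l)
      have h2 : (((e + 1) * w l : ℕ) : ℤ) = ((e * w l : ℕ) : ℤ) + (w l : ℤ) := by push_cast; ring
      rw [h2]
      exact h1
  have hprod : ∀ (α : Fin n →₀ ℕ) (s : Finset (Fin n)),
      TVB_P v p τ j (∏ l ∈ s, y l ^ α l) ((∑ l ∈ s, α l * w l : ℕ) : ℤ) := by
    intro α s
    classical
    induction s using Finset.induction_on with
    | empty =>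
      rw [Finset.prod_empty, Finset.sum_empty]
      exact hone
    | insert l s hl ih =>
      rw [Finset.prod_insert hl, Finset.sum_insert hl]
      have h1 := hmul (hpow l (α l)) ih
      rw [← Nat.cast_add] at h1
      exact h1
  have hweight : ∀ α : Fin n →₀ ℕ, Finsupp.weight w α = ∑ l, α l * w l := by
    intro α
    rw [Finsupp.weight_apply, Finsupp.sum_fintype _ _ (fun i => zero_smul ℕ (w i))]
    rfl
  have hpoly : ∀ (r : ℤ) (f : MvPolynomial (Fin n) k), (∀ α ∈ f.support, r ≤ ((Finsupp.weight w α : ℕ) : ℤ)) →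
      TVB_P v p τ j (aeval y f) r := by
    intro r f hf
    rw [aeval_def, eval₂_eq']
    have h1 : ∀ s : Finset (Fin n →₀ ℕ), (∀ α ∈ s, r ≤ ((Finsupp.weight w α : ℕ) : ℤ)) →
        TVB_P v p τ j (∑ d ∈ s, algebraMap k A (coeff d f) * ∏ i, y i ^ d i) r := by
      intro s
      classical
      induction s using Finset.induction_on with
      | empty =>
        intro _
        rw [Finset.sum_empty]
        exact hzero r
      | insert α s hα ih =>
        intro h2
        rw [Finset.sum_insert hα]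
        refine TVB_add hv hτa ?_ (ih fun β hβ => h2 β (by simp [hβ]))
        refine TVB_mono ?_ (hmul (hconst (coeff α f)) (hprod α Finset.univ))
        rw [zero_add, ← hweight]
        exact h2 α (by simp)
    exact h1 _ hf
  -- Taylor expansion
  have hmain : ∀ (r : ℤ) (a : A), Ge v r (algebraMap A K a) → Ge v (r + p * j) (τ a) := by
    intro r a ha
    refine hVCL k A K n m y φ hT w v hW (r + p * j) (τ a) (hτL a) fun N => ?_
    refine ⟨τ (aeval y (MvPowerSeries.truncTotal (N + p) (φ a))),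
      τ (a - aeval y (MvPowerSeries.truncTotal (N + p) (φ a))), ?_, hτL _, ?_, ?_⟩
    · rw [← hτa, add_sub_cancel]
    · refine (hpoly r _ ?_).2
      intro α hα
      rw [mem_support_iff] at hα
      by_cases h1 : α.degree < N + p
      · rw [MvPowerSeries.coeff_truncTotal _ h1] at hα
        exact Lib_W hW r a ha α hα
      · exfalso
        apply hα
        exact MvPowerSeries.coeff_truncTotal_eq_zero _ (not_lt.1 h1)
    · have h1 := (hMNT k A F K p n m y δ τ hδL hτ0).2 (N + p) _
        (Lib_trunc hT a (N + p))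
      rwa [Nat.add_sub_cancel] at h1
  exact hmain

end Pool.Agent.VF
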